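import Pool.Agent.W619.Y.Main

/-! Kodaira dimension and numerical dimension for quotients of (generically finite covers of)
products of a variety and curves. -/

set_option autoImplicit false
set_option linter.overlappingInstances false

universe u

open FF IntermediateField Pool.Agent.W619.PQ Pool.Agent.W619.PL Pool.Agent.W619.TW
  Pool.Agent.W619.X Pool.Agent.W619.Y

namespace Pool.Agent.Results.MP_c2a5fc_ag.MixedQuotients

/-- Let `Y` be a projective variety of dimension `d` with function field `M` (for instance a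
point), `Z` a projective variety of dimension `d + n` with function field `L`, `F i` (`i < n`) the
function fields of curves `C i`, with a generically finite rational map from `Z` to the product of
`Y` and the curves (`halg`), `G` a finite group of automorphisms of `L` which permutes the curves
through `σ`, and `X` a projective manifold birational to `Z / G`. Assume `MixedPos`, for instance that the fixed locus of each `g ≠ 1` in `G` on the product of
the curves is empty or of codimension at least `7`. Let `h` be the number of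
curves which are not elliptic. If the curves are irrational and `κ (Y) ≥ a`, then `κ (X) ≥ a + h`,
and `h⁰ (j m₀ K_X) ≥ j ^ (a + h)` for some `m₀` and all `j`. Let `Z` be the product. If the curves
are irrational and `ν (Y) ≤ a` (`h⁰ (m K_Y + A) ≤ C m ^ a` for each `A`), then `ν (X) ≤ a + h`. If
`ν (Y) = -∞` (`m K_Y + A` has no sections for large `m`, for each `A`) or one of the curves is
rational, then `ν (X) = -∞`. In particular `κ (X) = ν (X)` if `κ (Y) = ν (Y)`. -/
theorem result {L : Type u} [Field L] [Algebra ℂ L] (d n : ℕ)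
    (hn : Algebra.trdeg ℂ L = (d + n : ℕ))
    (M : IntermediateField ℂ L) [Algebra.EssFiniteType ℂ M] (hM : Algebra.trdeg ℂ M = d)
    (F : Fin n → IntermediateField ℂ L) (hF : ∀ i, IsFF ℂ (F i))
    (halg : Algebra.IsAlgebraic ↥(M ⊔ ⨆ i, F i) L)
    (G : Subgroup (L ≃ₐ[ℂ] L)) [Finite G] (σ : G →* Equiv.Perm (Fin n))
    (hσ : ∀ (g : G) i, ∀ z ∈ F i, (g : L ≃ₐ[ℂ] L) z ∈ F (σ g i))
    (h : MixedPos G σ F) :
    ((∀ i, ¬ ∃ t : F i, ℂ⟮t⟯ = ⊤) → ∀ a, KodTr ℂ M d a →
      KodTr ℂ (fixedField G) (d + n) (a + {i | ¬ IsElliptic (F i)}.ncard) ∧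
      KodGe ℂ (fixedField G) (d + n) (fun _ => False) (a + {i | ¬ IsElliptic (F i)}.ncard)) ∧
    (M ⊔ (⨆ i, F i) = ⊤ →
      ((∀ i, ¬ ∃ t : F i, ℂ⟮t⟯ = ⊤) → ∀ a, NumLe ℂ M d (fun _ => False) a →
        NumLe ℂ (fixedField G) (d + n) (fun _ => False) (a + {i | ¬ IsElliptic (F i)}.ncard)) ∧
      ((NumNeg ℂ M d (fun _ => False) ∨ ∃ i, ∃ t : F i, ℂ⟮t⟯ = ⊤) →
        NumNeg ℂ (fixedField G) (d + n) (fun _ => False))) := by
  obtain ⟨h1, h2⟩ := abM d n hn M hM F halg G σ hσ h
  exact ⟨h1, fun hsup => ⟨(h2 hsup).1, (h2 hsup).2.1⟩⟩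

end Pool.Agent.Results.MP_c2a5fc_ag.MixedQuotients
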