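import Pool.Agent.W619.X.Fin

/-! The Kodaira dimension equals the numerical dimension for projective manifolds birational to
quotients of products of curves. -/

set_option autoImplicit false
set_option linter.overlappingInstances false

universe u

open FF IntermediateField Pool.Agent.W619.PQ Pool.Agent.W619.PL Pool.Agent.W619.TW
  Pool.Agent.W619.X

namespace Pool.Agent.Results.MP_c2a5fc_ag.ProductQuotients

/-- Let `Z` be a projective variety of dimension `n` with function field `L`, `F i` (`i < n`) the
function fields of curves `C i` with rational maps `Z → C i` such that `Z → ∏ C i` is generically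
finite (`halg`), `G` a finite group of automorphisms of `L` preserving each `F i`, and `M` a
projective manifold birational to `Z / G`. Assume `PosCond`, for instance that each `g ≠ 1` in `G`
moves at least `7` of the curves, or that each `g ≠ 1` moves at least `2` of the curves and each
`C i / G` is irrational or has at least `5` branch points. Let `h` be the number of curves which are
not elliptic. If all the curves are irrational, then `κ (M) ≥ h`, and if moreover `Z` is the product
of the curves, then `κ (M) = ν (M) = h`: `h⁰ (j m₀ K_M) ≥ j ^ h` for some `m₀` and all `j`, and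
`h⁰ (m K_M + A) ≤ C m ^ h` for each `A`. If `Z` is the product and one of the curves is rational,
then, for each `A`, `m K_M + A` has no sections for large `m`. -/
theorem result {L : Type u} [Field L] [Algebra ℂ L] (n : ℕ) (hn : Algebra.trdeg ℂ L = n)
    (F : Fin n → IntermediateField ℂ L) (hF : ∀ i, IsFF ℂ (F i))
    (halg : Algebra.IsAlgebraic ↥(⨆ i, F i) L)
    (G : Subgroup (L ≃ₐ[ℂ] L)) [Finite G] (hst : ∀ i, ∀ g ∈ G, ∀ z ∈ F i, g z ∈ F i)
    (h : PosCond G F) :
    ((∀ i, ¬ ∃ t : F i, ℂ⟮t⟯ = ⊤) →
      KodGe ℂ (fixedField G) n (fun _ => False) {i | ¬ IsElliptic (F i)}.ncard ∧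
      ((⨆ i, F i = ⊤) →
        NumLe ℂ (fixedField G) n (fun _ => False) {i | ¬ IsElliptic (F i)}.ncard)) ∧
    ((⨆ i, F i = ⊤) → (∃ i, ∃ t : F i, ℂ⟮t⟯ = ⊤) → NumNeg ℂ (fixedField G) n fun _ => False) := by
  have h1 := knC n hn F hF halg G hst h
  exact ⟨h1.1, fun hsup hi => (h1.2 hsup hi).1⟩

end Pool.Agent.Results.MP_c2a5fc_ag.ProductQuotients
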